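import Pool.Agent.H6.FI.TargetsC
import Pool.Agent.H3.AM.A1

/-!
# Linear characters are irreducible (board `fi_modules`, row LCH)
-/

open scoped Classical ComplexConjugate

namespace Pool.Agent.H94.FI

open _root_.FI AMc

/-- the representation of a linear character -/
noncomputable def lrep {G : Type} [Group G] (l : G →* ℂˣ) : Representation ℂ G (Fin 1 → ℂ) where
  toFun g := ((l g : ℂˣ) : ℂ) • LinearMap.id
  map_one' := by
    rw [map_one, Units.val_one, one_smul]
    rfl
  map_mul' := by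
    intro a b
    rw [map_mul, Units.val_mul]
    ext i
    simp
    ring

theorem pf_LCH : T_LCH := by
  intro G _ _ l
  have : Fintype G := Fintype.ofFinite G
  have h1 : IsChar G (fun g => ((l g : ℂˣ) : ℂ)) := by
    refine ⟨1, lrep l, ?_⟩
    funext g
    change LinearMap.trace ℂ (Fin 1 → ℂ) (((l g : ℂˣ) : ℂ) • LinearMap.id) = _
    rw [map_smul, LinearMap.trace_id]
    simp
  refine (t_A3 G).2.2.2 _ h1 ?_
  have h2 : ∀ g : G, ((l g : ℂˣ) : ℂ) * conj ((l g : ℂˣ) : ℂ) = 1 := by
    intro g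
    have h3 : ((l g : ℂˣ) : ℂ) ^ Nat.card G = 1 := by
      rw [← Units.val_pow_eq_pow_val, ← map_pow, pow_card_eq_one', map_one, Units.val_one]
    have h4 : ‖((l g : ℂˣ) : ℂ)‖ = 1 := Complex.norm_eq_one_of_pow_eq_one h3 Nat.card_pos.ne'
    rw [Complex.mul_conj, Complex.normSq_eq_norm_sq, h4]
    simp
  rw [Finset.sum_congr rfl fun g _ => h2 g]
  simp

end Pool.Agent.H94.FI
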