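import Pool.Agent.H6.FI.TargetsB
import Pool.Agent.H6.FI.Lib

/-!
# Characters and subgroups of index 2 (board `fi_modules`, row IX2)
-/

open scoped Classical ComplexConjugate

namespace Pool.Agent.H94.FI

open _root_.FI AMc AMt

/-- the sign homomorphism of a subgroup of index 2 -/
noncomputable def sgh {Γ : Type} [Group Γ] (V : Subgroup Γ) (hV : V.index = 2) : Γ →* ℤˣ where
  toFun g := if g ∈ V then 1 else -1
  map_one' := if_pos V.one_mem
  map_mul' := by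
    intro a b
    have h := Subgroup.mul_mem_iff_of_index_two hV (a := a) (b := b)
    by_cases ha : a ∈ V <;> by_cases hb : b ∈ V
    · rw [if_pos (h.2 (iff_of_true ha hb)), if_pos ha, if_pos hb, one_mul]
    · rw [if_neg (fun hc => hb ((h.1 hc).1 ha)), if_pos ha, if_neg hb, one_mul]
    · rw [if_neg (fun hc => ha ((h.1 hc).2 hb)), if_neg ha, if_pos hb, mul_one]
    · rw [if_pos (h.2 (iff_of_false ha hb)), if_neg ha, if_neg hb]
      norm_num

theorem sgh_ker {Γ : Type} [Group Γ] (V : Subgroup Γ) (hV : V.index = 2) :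
    (sgh V hV).ker = V := by
  ext g
  rw [MonoidHom.mem_ker]
  change (if g ∈ V then (1 : ℤˣ) else -1) = 1 ↔ g ∈ V
  by_cases h : g ∈ V
  · rw [if_pos h]
    exact iff_of_true rfl h
  · rw [if_neg h]
    refine iff_of_false ?_ h
    decide

theorem pf_IX2 (h1 : T_KKP) : T_IX2 := by
  intro Γ _ _ M V hMV hV ψ hψ
  obtain ⟨hfin, -, -⟩ := h1 Γ M V hMV ψ hψ
  -- the characters over a fixed character of `V`
  have key : ∀ η ∈ IrrS V, {χ | χ ∈ IrrS (⊤ : Subgroup Γ) ∧ Over χ η}.Finite ∧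
      {χ | χ ∈ IrrS (⊤ : Subgroup Γ) ∧ Over χ η}.ncard ≤ 2 := by
    intro η hη
    obtain ⟨hQf, hQc⟩ := AMc.e9 ℤˣ
    rcases Set.eq_empty_or_nonempty {χ | χ ∈ IrrS (⊤ : Subgroup Γ) ∧ Over χ η} with h0 | ⟨χ₀, h0⟩
    · rw [h0]
      simp
    · have hsub : {χ | χ ∈ IrrS (⊤ : Subgroup Γ) ∧ Over χ η} ⊆
          Set.range fun μ : ℤˣ →* ℂˣ => tw (sgh V hV) μ χ₀ := by
        rintro χ ⟨hχ, hχη⟩
        obtain ⟨μ, hμ⟩ := FI.Lib.lE8 Γ ℤˣ (sgh V hV) ⊤ χ₀ h0.1 χ hχ η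
          (by rw [top_inf_eq, sgh_ker]; exact hη) h0.2 hχη
        exact ⟨μ, hμ.symm⟩
      have hfr : (Set.range fun μ : ℤˣ →* ℂˣ => tw (sgh V hV) μ χ₀).Finite := Set.finite_range _
      refine ⟨hfr.subset hsub, ?_⟩
      refine (Set.ncard_le_ncard hsub hfr).trans ?_
      have h2 : (Set.range fun μ : ℤˣ →* ℂˣ => tw (sgh V hV) μ χ₀).ncard ≤
          Nat.card (ℤˣ →* ℂˣ) := by
        rw [← Set.image_univ]
        refine (Set.ncard_image_le Set.finite_univ).trans ?_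
        rw [Set.ncard_univ]
      refine h2.trans (hQc.trans ?_)
      rw [Nat.card_eq_fintype_card]
      decide
  have hsub : Ab (⊤ : Subgroup Γ) ψ ⊆
      ⋃ η ∈ hfin.toFinset, {χ | χ ∈ IrrS (⊤ : Subgroup Γ) ∧ Over χ η} := by
    rintro χ ⟨hχ, hχψ⟩
    obtain ⟨η, hη, h2, h3⟩ := (FI.Lib.lOT Γ M V ⊤ hMV le_top χ hχ ψ hψ).1 hχψ
    refine Set.mem_biUnion (x := η) ?_ ⟨hχ, h2⟩
    exact hfin.mem_toFinset.2 ⟨hη, h3⟩
  have hbf : (⋃ η ∈ hfin.toFinset, {χ | χ ∈ IrrS (⊤ : Subgroup Γ) ∧ Over χ η}).Finite := by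
    refine Set.Finite.biUnion (Finset.finite_toSet _) fun η hη => ?_
    exact (key η (hfin.mem_toFinset.1 hη).1).1
  unfold kk
  refine (Set.ncard_le_ncard hsub hbf).trans ?_
  refine (Finset.set_ncard_biUnion_le _ _).trans ?_
  refine (Finset.sum_le_card_nsmul _ _ 2 fun η hη => (key η (hfin.mem_toFinset.1 hη).1).2).trans ?_
  rw [smul_eq_mul, mul_comm, Set.ncard_eq_toFinset_card _ hfin]

end Pool.Agent.H94.FI
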