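import Pool.Agent.H6.FI.TargetsB

/-!
# Numerical facts on the exponent (board `fi_modules`, row NE)
-/

namespace Pool.Agent.H94.FI

open _root_.FI

theorem log_c_pos : 0 < Real.log (26 / 7) := Real.log_pos (by norm_num)

theorem log120_pos : 0 < Real.log 120 := Real.log_pos (by norm_num)

theorem e0_pos : 0 < e0 := div_pos log120_pos log_c_pos

theorem e0_ge : 91 / 25 ≤ e0 := by
  unfold e0
  rw [div_le_div_iff₀ (by norm_num) log_c_pos]
  have h1 : Real.log (((26 : ℝ) / 7) ^ 91) ≤ Real.log ((120 : ℝ) ^ 25) := by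
    apply Real.log_le_log (by positivity)
    norm_num
  rw [Real.log_pow, Real.log_pow] at h1
  push_cast at h1
  linarith

theorem pf_NE : T_NE := by
  refine ⟨e0_ge, ?_, ?_⟩
  · rw [Real.rpow_def_of_pos (by norm_num)]
    have h1 : Real.log 120 * (1 / e0) = Real.log (26 / 7) := by
      unfold e0
      rw [one_div, inv_div, mul_div_assoc', mul_comm, mul_div_assoc, div_self log120_pos.ne',
        mul_one]
    rw [h1, Real.exp_log (by norm_num)]
  · have h1 : Real.log 60 * (1 / e0) ≤ Real.log (16 / 5) := by
      rw [mul_one_div, div_le_iff₀ e0_pos]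
      have h2 : Real.log ((60 : ℝ) ^ 25) ≤ Real.log (((16 : ℝ) / 5) ^ 91) := by
        apply Real.log_le_log (by positivity)
        norm_num
      rw [Real.log_pow, Real.log_pow] at h2
      push_cast at h2
      have h3 : 0 < Real.log (16 / 5) := Real.log_pos (by norm_num)
      have h4 : Real.log (16 / 5) * (91 / 25) ≤ Real.log (16 / 5) * e0 :=
        mul_le_mul_of_nonneg_left e0_ge h3.le
      linarith
    rw [Real.rpow_def_of_pos (by norm_num)]
    calc Real.exp (Real.log 60 * (1 / e0)) ≤ Real.exp (Real.log (16 / 5)) := Real.exp_le_exp.mpr h1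
      _ = 16 / 5 := Real.exp_log (by norm_num)

end Pool.Agent.H94.FI
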