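import Pool.Agent.H6.FI.TargetsB
import Pool.Agent.H6.FI.Lib

/-!
# The symmetric group of degree 5 (board `fi_modules`, row OPT)
-/

open scoped Classical ComplexConjugate

namespace Pool.Agent.H94.FI

open _root_.FI AMc AMt

/-- the symmetric group of degree 5 -/
abbrev S5 : Type := Equiv.Perm (Fin 5)

theorem fit_S5 (h3 : T_S5R) (h4 : T_S5V) : fit S5 = ⊥ := by
  rw [fit, sSup_eq_bot]
  rintro N ⟨hN, hNn⟩
  by_contra hne
  have h1 : A5 ≤ N := h3 ⊤ N le_top le_top (fun g _ n hn => hN.conj_mem n hn g) hne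
  have h2 : Group.IsSolvable N := inferInstance
  exact (h4 N).1 h2 h1

/-- a linear character of a subgroup gives an irreducible character -/
theorem lin_irr {Γ : Type} [Group Γ] [Fintype Γ] (l : Γ →* ℂˣ) :
    (fun g => ((l g : ℂˣ) : ℂ)) ∈ IrrS (⊤ : Subgroup Γ) := by
  refine FI.Lib.lS10 Γ ⊤ _ (fun g hg => absurd (Subgroup.mem_top g) hg)
    (FI.Lib.lA4.2.2 _ (l.comp (⊤ : Subgroup Γ).subtype)) ?_
  have h2 : ∀ g : Γ, ((l g : ℂˣ) : ℂ) * conj ((l g : ℂˣ) : ℂ) = 1 := by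
    intro g
    have h3 : ((l g : ℂˣ) : ℂ) ^ Nat.card Γ = 1 := by
      rw [← Units.val_pow_eq_pow_val, ← map_pow, pow_card_eq_one', map_one, Units.val_one]
    have h4 : ‖((l g : ℂˣ) : ℂ)‖ = 1 := Complex.norm_eq_one_of_pow_eq_one h3 Nat.card_pos.ne'
    rw [Complex.mul_conj, Complex.normSq_eq_norm_sq, h4]
    simp
  rw [Finset.sum_congr rfl fun g _ => h2 g]
  simp

/-- the trivial character of `A₅` -/
noncomputable def mu : S5 → ℂ := rsf A5 fun _ => 1

theorem mu_of {g : S5} (h : g ∈ A5) : mu g = 1 := if_pos h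

theorem mu_not {g : S5} (h : g ∉ A5) : mu g = 0 := if_neg h

theorem mu_cj (g : S5) : cj g mu = mu := by
  funext x
  have h : g * x * g⁻¹ ∈ A5 ↔ x ∈ A5 := by
    constructor
    · intro h
      have h1 := (inferInstance : (alternatingGroup (Fin 5)).Normal).conj_mem _ h g⁻¹
      have h2 : g⁻¹ * (g * x * g⁻¹) * g⁻¹⁻¹ = x := by group
      rwa [h2] at h1
    · intro h
      exact (inferInstance : (alternatingGroup (Fin 5)).Normal).conj_mem _ h g
  change mu (g * x * g⁻¹) = mu x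
  by_cases hx : x ∈ A5
  · rw [mu_of hx, mu_of (h.2 hx)]
  · rw [mu_not hx, mu_not fun h' => hx (h.1 h')]

/-- functions equal to one on `A₅` lie over its trivial character -/
theorem over_mu (f : S5 → ℂ) (hf : ∀ g ∈ A5, f g = 1) : Over f mu := by
  unfold Over
  have h1 : ∀ g : S5, f g * starRingEnd ℂ (mu g) = if g ∈ A5 then (1 : ℂ) else 0 := by
    intro g
    by_cases hg : g ∈ A5
    · rw [if_pos hg, mu_of hg, hf g hg, map_one, mul_one]
    · rw [if_neg hg, mu_not hg, map_zero, mul_zero]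
  rw [Finset.sum_congr rfl fun g _ => h1 g, Finset.sum_ite, Finset.sum_const_zero, add_zero,
    Finset.sum_const, nsmul_eq_mul, mul_one]
  have h2 : (Finset.univ.filter fun g : S5 => g ∈ A5).card ≠ 0 :=
    Finset.card_ne_zero.2 ⟨1, Finset.mem_filter.2 ⟨Finset.mem_univ _, A5.one_mem⟩⟩
  exact_mod_cast h2

/-- the sign as a homomorphism to the units of `ℂ` -/
noncomputable def sgc : S5 →* ℂˣ := (Units.map (Int.castRingHom ℂ).toMonoidHom).comp
  Equiv.Perm.sign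

theorem sgc_of {g : S5} (h : g ∈ A5) : ((sgc g : ℂˣ) : ℂ) = 1 := by
  have h1 : Equiv.Perm.sign g = 1 := h
  unfold sgc
  rw [MonoidHom.comp_apply, h1, map_one, Units.val_one]

theorem over_top (h2 : mu ∈ IrrS A5) :
    Ab (⊤ : Subgroup S5) mu = {(fun _ => 1), fun g => ((sgc g : ℂˣ) : ℂ)} := by
  have hone : (fun _ : S5 => (1 : ℂ)) ∈ IrrS (⊤ : Subgroup S5) := lin_irr (1 : S5 →* ℂˣ)
  have ho1 : Over (fun _ : S5 => (1 : ℂ)) mu := over_mu _ fun _ _ => rfl
  ext χ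
  simp only [Set.mem_insert_iff, Set.mem_singleton_iff]
  constructor
  · rintro ⟨hχ, hχo⟩
    obtain ⟨l, hl⟩ := FI.Lib.lE8 S5 ℤˣ Equiv.Perm.sign ⊤ _ hone χ hχ mu
      (by rw [top_inf_eq]; exact h2) ho1 hχo
    have hl2 : ((l (-1) : ℂˣ) : ℂ) * ((l (-1) : ℂˣ) : ℂ) = 1 := by
      rw [← Units.val_mul, ← map_mul]
      norm_num
    have hl3 : ((l (-1) : ℂˣ) : ℂ) = 1 ∨ ((l (-1) : ℂˣ) : ℂ) = -1 := mul_self_eq_one_iff.1 hl2
    have hl1 : ((l 1 : ℂˣ) : ℂ) = 1 := by rw [map_one, Units.val_one]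
    rcases hl3 with h3 | h3
    · left
      rw [hl]
      funext g
      change ((l (Equiv.Perm.sign g) : ℂˣ) : ℂ) * 1 = 1
      rcases Int.units_eq_one_or (Equiv.Perm.sign g) with h4 | h4
      · rw [h4, hl1, mul_one]
      · rw [h4, h3, mul_one]
    · right
      rw [hl]
      funext g
      change ((l (Equiv.Perm.sign g) : ℂˣ) : ℂ) * 1 =
        ((Equiv.Perm.sign g : ℤˣ) : ℤ)
      rcases Int.units_eq_one_or (Equiv.Perm.sign g) with h4 | h4
      · rw [h4, hl1]; norm_num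
      · rw [h4, h3]; norm_num
  · rintro (rfl | rfl)
    · exact ⟨hone, ho1⟩
    · exact ⟨lin_irr sgc, over_mu _ fun g hg => sgc_of hg⟩

theorem one_ne_sgc : (fun _ : S5 => (1 : ℂ)) ≠ fun g => ((sgc g : ℂˣ) : ℂ) := by
  intro h
  have h1 := congrFun h (Equiv.swap 0 1)
  have h2 : ((sgc (Equiv.swap 0 1) : ℂˣ) : ℂ) = ((Equiv.Perm.sign (Equiv.swap (0 : Fin 5) 1) : ℤˣ) : ℤ) :=
    rfl
  rw [h2, Equiv.Perm.sign_swap (by decide)] at h1
  norm_num at h1

theorem kk_top (h2 : mu ∈ IrrS A5) : kk (⊤ : Subgroup S5) mu = 2 ∧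
    dd (⊤ : Subgroup S5) mu = 2 := by
  unfold kk dd
  rw [over_top h2]
  constructor
  · exact Set.ncard_pair one_ne_sgc
  · rw [finsum_mem_pair one_ne_sgc]
    change (1 : ℂ).re + ((sgc 1 : ℂˣ) : ℂ).re = 2
    rw [map_one, Units.val_one]
    norm_num

theorem kk_A5 (h2 : mu ∈ IrrS A5) : kk A5 mu = 1 ∧ dd A5 mu = 1 := by
  have h1 : Ab A5 mu = {mu} := by
    ext χ
    rw [Set.mem_singleton_iff]
    constructor
    · rintro ⟨hχ, hχo⟩
      by_contra hne
      have h3 := FI.Lib.lS2 S5 A5 χ mu hχ h2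
      rw [if_neg hne] at h3
      exact hχo h3
    · rintro rfl
      exact ⟨h2, over_mu _ fun g hg => mu_of hg⟩
  unfold kk dd
  rw [h1]
  constructor
  · exact Set.ncard_singleton _
  · rw [finsum_mem_singleton, mu_of A5.one_mem]
    norm_num

theorem pf_OPT (h1 : T_EX2) (h2 : T_A5T) (h3 : T_S5R) (h4 : T_S5V) (h5 : T_BRG) (h6 : T_ABL)
    (_ : T_CLF) : T_OPT := by
  have hfit : fit S5 = ⊥ := fit_S5 h3 h4
  refine ⟨?_, ?_⟩
  · change (fit S5).index = 120
    rw [hfit, Subgroup.index_bot, Nat.card_perm, Nat.card_fin]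
    rfl
  · intro θ hθ
    obtain ⟨hν, hacd⟩ := h5 S5 (fit S5) θ hθ
    set ν : S5 → ℂ := ext0 (fit S5) θ with hνdef
    have hmem : ∀ z, z ∈ fit S5 ↔ z = 1 := fun z => by rw [hfit, Subgroup.mem_bot]
    have hν1 : ν 1 = 1 := (h6 S5 (fit S5) (fun a ha b hb => by
      rw [(hmem a).1 ha, (hmem b).1 hb]) ν hν).1
    have hν0 : ∀ g, g ≠ 1 → ν g = 0 := fun g hg => (FI.Lib.lS1 S5 (fit S5) ν hν).1 g
      fun h => hg ((hmem g).1 h)
    have hmu : mu ∈ IrrS A5 := by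
      obtain ⟨b4, b5, c3, c3', hA⟩ := h2
      exact (hA.all _).2 (Or.inl rfl)
    have hAE : AE (fit S5) A5 (⊥ : Subgroup S5) (MonoidHom.id S5) := by
      refine ⟨?_, inferInstance, ?_, ?_, ?_⟩
      · intro z hz g
        rw [(hmem z).1 hz, one_mul, mul_one]
      · intro g
        rw [Subgroup.mem_bot]
        rfl
      · rw [hfit, inf_bot_eq]
      · exact Subgroup.map_id _
    have hover : Over mu ν := by
      unfold Over
      rw [Finset.sum_eq_single 1 (fun g _ hg => by rw [hν0 g hg, map_zero, mul_zero])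
        (fun h => absurd (Finset.mem_univ _) h), hν1, mu_of A5.one_mem, map_one, mul_one]
      exact one_ne_zero
    obtain ⟨e1, e2⟩ := h1 S5 (fit S5) A5 ⊥ (MonoidHom.id S5) hAE Function.surjective_id ν hν mu
      hmu (mu_of A5.one_mem) hover mu_cj
    obtain ⟨k1, k2⟩ := kk_top hmu
    obtain ⟨k3, k4⟩ := kk_A5 hmu
    rw [sup_bot_eq, k1, k3] at e1
    rw [sup_bot_eq, k2, k4] at e2
    rw [e1, e2] at hacd
    push_cast at hacd
    have : acd (fit S5) θ = 26 / 7 := by linarith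
    exact this

end Pool.Agent.H94.FI
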