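import Pool.Agent.H6.FI.TargetsA

/-!
# Two complementary invariant subgroups; merging blocks (board `fi_modules`, rows TWO, MRG)
-/

open scoped Classical

namespace Pool.Agent.H94.FI

open _root_.FI

theorem pf_TWO : T_TWO := by
  intro R V _ _ _ ρ W W' hW hW' hbot htop
  constructor
  · have h1 : Ck ρ ⊤ = Ck ρ W' ⊓ Ck ρ W := by
      ext r
      constructor
      · intro h
        exact ⟨fun w _ => h w trivial, fun w _ => h w trivial⟩
      · rintro ⟨h2, h3⟩ w -
        have h4 : w ∈ W ⊔ W' := by rw [htop]; trivial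
        obtain ⟨a, ha, b, hb, rfl⟩ := AddSubgroup.mem_sup.mp h4
        rw [map_add, h3 a ha, h2 b hb]
    have h2 := Subgroup.relIndex_mul_index (inf_le_right : Ck ρ W' ⊓ Ck ρ W ≤ Ck ρ W)
    rw [h1, ← h2, Subgroup.inf_relIndex_right, mul_comm]
  · intro x hx y hy
    have h1 : St ρ (x + y) = St ρ y ⊓ St ρ x := by
      ext r
      constructor
      · intro h
        have h2 : ρ r (x + y) = x + y := h
        rw [map_add] at h2
        have h3 : ρ r x - x = y - ρ r y := by
          rw [sub_eq_sub_iff_add_eq_add, h2, add_comm]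
        have h4 : ρ r x - x ∈ W ⊓ W' := by
          refine ⟨W.sub_mem (hW r trivial x hx) hx, ?_⟩
          rw [h3]
          exact W'.sub_mem hy (hW' r trivial y hy)
        rw [hbot, AddSubgroup.mem_bot] at h4
        refine ⟨?_, ?_⟩
        · rw [h4] at h3
          exact (sub_eq_zero.mp h3.symm).symm
        · exact sub_eq_zero.mp h4
      · rintro ⟨h2, h3⟩
        change ρ r (x + y) = x + y
        rw [map_add]
        have h4 : ρ r x = x := h3
        have h5 : ρ r y = y := h2
        rw [h4, h5]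
    have h2 := Subgroup.relIndex_mul_index (inf_le_right : St ρ y ⊓ St ρ x ≤ St ρ x)
    rw [h1, ← h2, Subgroup.inf_relIndex_right, mul_comm]
    apply Nat.mul_le_mul_right
    apply Subgroup.relIndex_le_of_le_right
    · intro r hr
      exact hr x hx
    · exact Subgroup.FiniteIndex.index_ne_zero

theorem pf_MRG : T_MRG := by
  intro R V _ _ _ _ ρ H W hI
  rcases eq_top_or_exists_le_coatom H with h | ⟨H', hH', hle⟩
  · exact absurd h hI.ne
  set π : R ⧸ H → R ⧸ H' := Subgroup.quotientMapOfLE hle with hπ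
  have hπs : ∀ (r : R) (c : R ⧸ H), π (r • c) = r • π c := by
    intro r c
    induction c using QuotientGroup.induction_on with
    | H z => rfl
  refine ⟨H', fun c' => ⨆ c ∈ {c | π c = c'}, W c, ⟨hH'.1, ?_, ?_, ?_⟩, hH'⟩
  · intro r c' w hw
    have h1 : (⨆ c ∈ {c | π c = c'}, W c) ≤
        (⨆ c ∈ {c | π c = r • c'}, W c).comap (ρ r) := by
      refine iSup₂_le fun c hc => ?_
      intro v hv
      change ρ r v ∈ ⨆ c ∈ {c | π c = r • c'}, W c
      have h2 : W (r • c) ≤ ⨆ c ∈ {c | π c = r • c'}, W c :=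
        le_iSup₂ (f := fun c (_ : c ∈ {c | π c = r • c'}) => W c) (r • c) (by
          change π (r • c) = r • c'
          rw [hπs]
          exact congrArg (r • ·) hc)
      exact h2 (hI.perm r c v hv)
    exact h1 hw
  · intro c'
    have h1 : (⨆ (j) (_ : j ≠ c'), ⨆ c ∈ {c | π c = j}, W c) ≤ ⨆ c ∈ {c | π c ≠ c'}, W c := by
      refine iSup₂_le fun j hj => iSup₂_le fun c hc => ?_
      exact le_iSup₂ (f := fun c (_ : c ∈ {c | π c ≠ c'}) => W c) c (by
        change π c ≠ c'
        have : π c = j := hc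
        rw [this]
        exact hj)
    refine Disjoint.mono_right h1 ?_
    apply iSupIndep.disjoint_biSup_biSup' hI.ind
    · rw [Set.disjoint_left]
      intro c hc hc'
      exact hc' hc
    · exact Set.toFinite _
  · rw [eq_top_iff, ← hI.sup]
    refine iSup_le fun c => ?_
    refine le_trans ?_ (le_iSup (fun c' => ⨆ c ∈ {c | π c = c'}, W c) (π c))
    exact le_iSup₂ (f := fun d (_ : d ∈ {d | π d = π c}) => W d) c rfl

end Pool.Agent.H94.FI
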